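import Pool.Agent.Helper60.HB.Skel

set_option autoImplicit false

/-! # The volume of the unit lattice of a cubic field -/

open NumberField

namespace Pool.Agent.Helper77.HB

open Pool.Agent.Helper60.HB

/-- the number of grid points -/
noncomputable def unvN (Δ c1 l : ℝ) : ℕ := max 1 ⌊l / (3 * Δ / c1)⌋₊

theorem unvN_pos (Δ c1 l : ℝ) : 1 ≤ unvN Δ c1 l := le_max_left _ _

theorem unvN_ge (Δ c1 l : ℝ) (hΔ : 1 ≤ Δ) (hc1 : 0 < c1) :
    l ≤ 6 * Δ / c1 * (unvN Δ c1 l : ℝ) := by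
  have hw : 0 < 3 * Δ / c1 := by positivity
  have h1 : l / (3 * Δ / c1) < (⌊l / (3 * Δ / c1)⌋₊ : ℝ) + 1 := Nat.lt_floor_add_one _
  have h2 : (⌊l / (3 * Δ / c1)⌋₊ : ℝ) ≤ (unvN Δ c1 l : ℝ) := by
    exact_mod_cast le_max_right _ _
  have h3 : (1 : ℝ) ≤ (unvN Δ c1 l : ℝ) := by exact_mod_cast unvN_pos Δ c1 l
  have h4 : l / (3 * Δ / c1) ≤ 2 * (unvN Δ c1 l : ℝ) := by linarith
  rw [div_le_iff₀ hw] at h4
  calc l ≤ 2 * (unvN Δ c1 l : ℝ) * (3 * Δ / c1) := h4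
    _ = 6 * Δ / c1 * (unvN Δ c1 l : ℝ) := by ring

theorem unvN_le (Δ c1 l : ℝ) (hΔ : 1 ≤ Δ) (hc1 : 0 < c1) (hl : 0 ≤ l)
    (h2 : 2 ≤ unvN Δ c1 l) : 3 * Δ / c1 * (unvN Δ c1 l : ℝ) ≤ l := by
  have hw : 0 < 3 * Δ / c1 := by positivity
  have h3 : unvN Δ c1 l = ⌊l / (3 * Δ / c1)⌋₊ := by
    unfold unvN at h2 ⊢
    omega
  have h4 : (⌊l / (3 * Δ / c1)⌋₊ : ℝ) ≤ l / (3 * Δ / c1) := Nat.floor_le (by positivity)
  rw [h3]
  rw [le_div_iff₀ hw] at h4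
  linarith

/-- the key injectivity -/
theorem unv_inj {K : Type} [Field K] [NumberField K] {c1 Δ : ℝ} (hc1 : 0 < c1) (hΔ : 1 ≤ Δ)
    {r : ℕ} {η : Fin r → (𝓞 K)ˣ} {lam : Fin r → ℝ} (hU : UL K c1 r η lam)
    (k k' : ∀ i : Fin r, Fin (unvN Δ c1 (lam i))) (a a' : 𝓞 K) (ha : a ≠ 0) (_ha' : a' ≠ 0)
    (h : ∀ w : InfinitePlace K, |Real.log (w (a : K)) -
      ∑ i, ((k i : ℕ) : ℝ) / (unvN Δ c1 (lam i) : ℝ) * Real.log (w ((η i : 𝓞 K) : K))| ≤ Δ)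
    (h' : ∀ w : InfinitePlace K, |Real.log (w (a' : K)) -
      ∑ i, ((k' i : ℕ) : ℝ) / (unvN Δ c1 (lam i) : ℝ) * Real.log (w ((η i : 𝓞 K) : K))| ≤ Δ)
    (hs : Ideal.span {a} = Ideal.span {a'}) : k = k' := by
  rw [Ideal.span_singleton_eq_span_singleton] at hs
  obtain ⟨u, hu⟩ := hs
  obtain ⟨j, hj⟩ := hU.gen u
  have hlog : ∀ w : InfinitePlace K, Real.log (w (a' : K)) =
      Real.log (w (a : K)) + Real.log (w ((u : 𝓞 K) : K)) := by
    intro w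
    rw [← hu]
    have e1 : ((a * (u : 𝓞 K) : 𝓞 K) : K) = (a : K) * ((u : 𝓞 K) : K) := by
      exact map_mul (algebraMap (𝓞 K) K) a (u : 𝓞 K)
    rw [e1, map_mul, Real.log_mul]
    · rw [Ne, map_eq_zero]
      exact_mod_cast ha
    · rw [Ne, map_eq_zero]
      exact_mod_cast u.ne_zero
  have hM := hU.orth (fun i => ((k' i : ℕ) : ℝ) / (unvN Δ c1 (lam i) : ℝ) -
    ((k i : ℕ) : ℝ) / (unvN Δ c1 (lam i) : ℝ) - (j i : ℝ)) (2 * Δ) (by
    intro w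
    have e1 : ∑ i, (((k' i : ℕ) : ℝ) / (unvN Δ c1 (lam i) : ℝ) -
        ((k i : ℕ) : ℝ) / (unvN Δ c1 (lam i) : ℝ) - (j i : ℝ)) *
          Real.log (w ((η i : 𝓞 K) : K)) =
        ∑ i, ((k' i : ℕ) : ℝ) / (unvN Δ c1 (lam i) : ℝ) * Real.log (w ((η i : 𝓞 K) : K)) -
        ∑ i, ((k i : ℕ) : ℝ) / (unvN Δ c1 (lam i) : ℝ) * Real.log (w ((η i : 𝓞 K) : K)) -
        ∑ i, (j i : ℝ) * Real.log (w ((η i : 𝓞 K) : K)) := by
      rw [← Finset.sum_sub_distrib, ← Finset.sum_sub_distrib]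
      refine Finset.sum_congr rfl fun i _ => ?_
      ring
    rw [e1, ← hj w]
    have h1 := abs_le.mp (h w)
    have h2 := abs_le.mp (h' w)
    have h3 := hlog w
    rw [abs_le]
    constructor
    · linarith [h1.1, h1.2, h2.1, h2.2]
    · linarith [h1.1, h1.2, h2.1, h2.2])
  funext i
  by_contra hne
  have hNlt := (k i).isLt
  have hNlt' := (k' i).isLt
  have hne' : (k i : ℕ) ≠ (k' i : ℕ) := fun h => hne (Fin.ext h)
  have hN2 : 2 ≤ unvN Δ c1 (lam i) := by omega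
  have hlam : 0 ≤ lam i := le_trans hc1.le (hU.lam_ge i)
  have hle := unvN_le Δ c1 (lam i) hΔ hc1 hlam hN2
  have hMi := hM i
  set N := unvN Δ c1 (lam i) with hNdef
  have hNpos : (0 : ℝ) < (N : ℝ) := by
    have : 0 < N := by omega
    exact_mod_cast this
  have hint : ((k' i : ℕ) : ℤ) - ((k i : ℕ) : ℤ) - j i * (N : ℤ) ≠ 0 := by
    intro h0
    have h1 : (N : ℤ) ∣ ((k' i : ℕ) : ℤ) - ((k i : ℕ) : ℤ) := ⟨j i, by linarith⟩
    have h2 : ((k' i : ℕ) : ℤ) - ((k i : ℕ) : ℤ) = 0 := by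
      apply Int.eq_zero_of_abs_lt_dvd h1
      rw [abs_lt]
      constructor <;> omega
    omega
  have habs : (1 : ℝ) ≤ |((k' i : ℕ) : ℝ) - ((k i : ℕ) : ℝ) - (j i : ℝ) * (N : ℝ)| := by
    have h1 : (1 : ℤ) ≤ |((k' i : ℕ) : ℤ) - ((k i : ℕ) : ℤ) - j i * (N : ℤ)| :=
      Int.one_le_abs hint
    have h2 : ((1 : ℤ) : ℝ) ≤ ((|((k' i : ℕ) : ℤ) - ((k i : ℕ) : ℤ) - j i * (N : ℤ)| : ℤ) : ℝ) :=
      by exact_mod_cast h1
    push_cast at h2
    exact h2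
  have hdiv : 1 / (N : ℝ) ≤ |((k' i : ℕ) : ℝ) / (N : ℝ) - ((k i : ℕ) : ℝ) / (N : ℝ) -
      (j i : ℝ)| := by
    have e1 : ((k' i : ℕ) : ℝ) / (N : ℝ) - ((k i : ℕ) : ℝ) / (N : ℝ) - (j i : ℝ) =
        (((k' i : ℕ) : ℝ) - ((k i : ℕ) : ℝ) - (j i : ℝ) * (N : ℝ)) / (N : ℝ) := by
      field_simp
    rw [e1, abs_div, abs_of_pos hNpos]
    exact div_le_div_of_nonneg_right habs hNpos.le
  have hfin : 3 * Δ ≤ 2 * Δ := by
    calc 3 * Δ = c1 * (1 / (N : ℝ)) * (3 * Δ / c1 * (N : ℝ)) := by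
          field_simp
      _ ≤ c1 * |((k' i : ℕ) : ℝ) / (N : ℝ) - ((k i : ℕ) : ℝ) / (N : ℝ) - (j i : ℝ)| *
          lam i := by
          apply mul_le_mul
          · exact mul_le_mul_of_nonneg_left hdiv hc1.le
          · exact hle
          · positivity
          · positivity
      _ ≤ 2 * Δ := hMi
  linarith

theorem st_UNV (hMINK : ST_MINK) (hIDC : ST_IDC) : ST_UNV := by
  obtain ⟨C0, hC0, hMP⟩ := hMINK
  intro c1 ε hc1 hc1' hε
  obtain ⟨C1, hC1, hI⟩ := hIDC ε hε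
  refine ⟨max 1 ((12 / (c1 * ε)) ^ 2 * C1 * C0 ^ (1 + 2 * ε)), le_max_left _ _, ?_⟩
  intro K _ _ hK r η lam hr hU
  obtain ⟨hΔ1, hM⟩ := hMP K hK
  set Y : ℝ := C0 * Real.sqrt |(discr K : ℝ)| with hY
  set Δ : ℝ := Real.log Y with hΔ
  have hY0 : 0 ≤ Y := by positivity
  have hYpos : 0 < Y := by
    rcases hY0.lt_or_eq with h | h
    · exact h
    · rw [hΔ, ← h, Real.log_zero] at hΔ1
      linarith
  have hexp : Real.exp Δ = Y := Real.exp_log hYpos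
  have hY1 : 1 ≤ Y := by
    rw [← hexp]
    exact Real.one_le_exp (by linarith)
  -- the algebraic integers
  have hex : ∀ k : (∀ i : Fin r, Fin (unvN Δ c1 (lam i))), ∃ a : 𝓞 K, a ≠ 0 ∧
      (((Algebra.norm ℤ a).natAbs : ℕ) : ℝ) ≤ Real.exp Δ ∧
      ∀ w : InfinitePlace K, |Real.log (w (a : K)) -
        ∑ i, ((k i : ℕ) : ℝ) / (unvN Δ c1 (lam i) : ℝ) *
          Real.log (w ((η i : 𝓞 K) : K))| ≤ Δ := by
    intro k
    apply hM (fun w => ∑ i, ((k i : ℕ) : ℝ) / (unvN Δ c1 (lam i) : ℝ) *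
          Real.log (w ((η i : 𝓞 K) : K)))
    have e1 : ∀ w : InfinitePlace K, (w.mult : ℝ) *
        ∑ i, ((k i : ℕ) : ℝ) / (unvN Δ c1 (lam i) : ℝ) * Real.log (w ((η i : 𝓞 K) : K)) =
        ∑ i, ((k i : ℕ) : ℝ) / (unvN Δ c1 (lam i) : ℝ) *
          ((w.mult : ℝ) * Real.log (w ((η i : 𝓞 K) : K))) := by
      intro w
      rw [Finset.mul_sum]
      refine Finset.sum_congr rfl fun i _ => ?_
      ring
    simp only [e1]
    rw [Finset.sum_comm]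
    apply Finset.sum_eq_zero
    intro i _
    rw [← Finset.mul_sum]
    have h0 : ∑ w : InfinitePlace K, (w.mult : ℝ) * Real.log (w ((η i : 𝓞 K) : K)) = 0 :=
      NumberField.Units.sum_mult_mul_log (η i)
    rw [h0, mul_zero]
  choose a ha0 haN haL using hex
  have hinj : Function.Injective (fun k => Ideal.span {a k}) := by
    intro k k' h
    exact unv_inj hc1 hΔ1 hU k k' (a k) (a k') (ha0 k) (ha0 k') (haL k) (haL k') h
  classical
  have hcard := hI K hK Y (Finset.univ.image (fun k => Ideal.span {a k})) hY1 (by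
    intro I hI'
    rw [Finset.mem_image] at hI'
    obtain ⟨k, _, rfl⟩ := hI'
    constructor
    · rw [Ne, Ideal.span_singleton_eq_bot]
      exact ha0 k
    · rw [Ideal.absNorm_span_singleton, ← hexp]
      exact haN k)
  rw [Finset.card_image_of_injective _ hinj, Finset.card_univ, Fintype.card_pi] at hcard
  simp only [Fintype.card_fin] at hcard
  push_cast at hcard
  -- comparison
  have hprod : ∏ i, lam i ≤ (6 * Δ / c1) ^ 2 * ∏ i, (unvN Δ c1 (lam i) : ℝ) := by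
    have h1 : ∏ i, lam i ≤ ∏ i, (6 * Δ / c1 * (unvN Δ c1 (lam i) : ℝ)) := by
      apply Finset.prod_le_prod
      · intro i _
        exact le_trans hc1.le (hU.lam_ge i)
      · intro i _
        exact unvN_ge Δ c1 (lam i) hΔ1 hc1
    rw [Finset.prod_mul_distrib, Finset.prod_const, Finset.card_univ, Fintype.card_fin] at h1
    refine h1.trans ?_
    apply mul_le_mul_of_nonneg_right _ (Finset.prod_nonneg fun i _ => Nat.cast_nonneg _)
    apply pow_le_pow_right₀ _ hr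
    rw [le_div_iff₀ hc1]
    linarith
  have hlog : Δ ≤ Y ^ (ε / 2) / (ε / 2) := Real.log_le_rpow_div hY0 (by linarith)
  have hd : 0 < Y ^ (ε / 2) := Real.rpow_pos_of_pos hYpos _
  have hΔ2 : (6 * Δ / c1) ^ 2 ≤ (12 / (c1 * ε)) ^ 2 * Y ^ ε := by
    have h1 : 6 * Δ / c1 ≤ 12 / (c1 * ε) * Y ^ (ε / 2) := by
      calc 6 * Δ / c1 ≤ 6 * (Y ^ (ε / 2) / (ε / 2)) / c1 := by
            apply div_le_div_of_nonneg_right _ hc1.le
            linarith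
        _ = 12 / (c1 * ε) * Y ^ (ε / 2) := by
            field_simp
            ring
    have h2 : (6 * Δ / c1) ^ 2 ≤ (12 / (c1 * ε) * Y ^ (ε / 2)) ^ 2 := by
      apply pow_le_pow_left₀ _ h1
      have : 0 ≤ Δ := by linarith
      positivity
    rw [mul_pow, ← Real.rpow_natCast (Y ^ (ε / 2)) 2, ← Real.rpow_mul hY0] at h2
    have e2 : ε / 2 * ((2 : ℕ) : ℝ) = ε := by push_cast; ring
    rwa [e2] at h2
  have hYε : 0 ≤ Y ^ (1 + ε) := Real.rpow_nonneg hY0 _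
  have hfin : ∏ i, lam i ≤ (12 / (c1 * ε)) ^ 2 * C1 * Y ^ (1 + 2 * ε) := by
    calc ∏ i, lam i ≤ (6 * Δ / c1) ^ 2 * ∏ i, (unvN Δ c1 (lam i) : ℝ) := hprod
      _ ≤ ((12 / (c1 * ε)) ^ 2 * Y ^ ε) * (C1 * Y ^ (1 + ε)) := by
          apply mul_le_mul hΔ2 hcard
          · exact Finset.prod_nonneg fun i _ => Nat.cast_nonneg _
          · positivity
      _ = (12 / (c1 * ε)) ^ 2 * C1 * (Y ^ ε * Y ^ (1 + ε)) := by ring
      _ = (12 / (c1 * ε)) ^ 2 * C1 * Y ^ (1 + 2 * ε) := by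
          rw [← Real.rpow_add hYpos]
          congr 2
          ring
  have hYpow : Y ^ (1 + 2 * ε) = C0 ^ (1 + 2 * ε) * |(discr K : ℝ)| ^ (1 / 2 + ε) := by
    rw [hY, Real.mul_rpow (by linarith) (Real.sqrt_nonneg _), Real.sqrt_eq_rpow,
      ← Real.rpow_mul (abs_nonneg _)]
    congr 2
    ring
  rw [hYpow] at hfin
  calc ∏ i, lam i ≤ (12 / (c1 * ε)) ^ 2 * C1 *
        (C0 ^ (1 + 2 * ε) * |(discr K : ℝ)| ^ (1 / 2 + ε)) := hfin
    _ = ((12 / (c1 * ε)) ^ 2 * C1 * C0 ^ (1 + 2 * ε)) * |(discr K : ℝ)| ^ (1 / 2 + ε) := by ring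
    _ ≤ _ := by
        apply mul_le_mul_of_nonneg_right (le_max_right _ _)
        exact Real.rpow_nonneg (abs_nonneg _) _

end Pool.Agent.Helper77.HB
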